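import Pool.Agent.N126.LA

/-!
MP_f82ddf_nt, Q1: a combinatorial criterion for hyperbolicity and for the existence of infinitely
many rational points of a special form, for the hypersurfaces over number fields given by linear
combinations, with arbitrary coefficients, of the powers `x_j ^ d` and of `s` further monomials of
degree `d`, in given sets of variables, for almost all choices of these monomials.

`TuplesIn I d`, `AlmostAllIn I P` (`Pool/Agent/R869/SDefs.lean`): the tuples of exponent vectors of
degree `d`, the `i`-th one of a monomial in the variables from `I i`; the proportion of the tuples
with the property `P` tends to `1` for `d → ∞`. `withPowers d a` (`WDensDefs.lean`): the set of the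
exponent vectors `a i` and of those of the `x_j ^ d`. `Loose F J` (`USharpDefs.lean`): `F` does not
have exactly one monomial in the variables from `J`, and there is a colouring of the variables with
`V ≥ 2` colours on `J` such that `N + D + 4 ≤ 2 V`, where `N` is the number of the monomials of `F` in
the variables from `J` whose variables have different colours, and `D` is the number of the colours
on `J` for which exactly one monomial of `F` in the variables from `J` has all its variables of this
colour.

For ideals `I`, `I'` let `X` and `Z` be the projective varieties over `K` given by the forms in `I`
and in `I'` (`Z` is empty for `I' = ⊤`). From `Pool/Agent/Y719/SU/Def.lean`: `Hyperbolic σ I I'`: all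
nonconstant entire curves in `X_σ` lie in `Z_σ`; `NoRat σ I I'`: all rational curves in `X_σ` lie in
`Z_σ`; `Finiteness I I'`: for all finite extensions `L` of `K` only finitely many points of `X(L)` are
outside of `Z`; `HtBound I I'`: the height of the points of `X(L)` outside of `Z` with homogeneous
coordinates `x = ∑ u_j v_j`, where the `u_j` are `r` elements of a finitely generated group of
rational numbers and the `v_j` are `r` vectors over `L`, is at most a constant times `1` plus the
height of the system of the `v_j`; `FinBound I I'`: for bounded `v_j` there are only finitely many
such points. `GeometricFinite I I'` (`Pool/Agent/N126/LG.lean`): for all `L`, all points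
`x ∈ L ^ (n + 1)` and all weights `b`, if all the points `(x_j 2 ^ (m b_j))`, `m = 0, 1, 2, …`, are on
`X`, then only finitely many of them are outside of `Z`. `part F J`, `hyper K J`
(`Pool/Agent/N126/LA.lean`): the ideals generated by `F` and the `x_l`, `l ∉ J`, and by the product of
the `x_j`, `j ∈ J`; so the points outside of `Z` are the points of `{F = 0}` of which exactly the
coordinates outside `J` vanish.
-/

set_option autoImplicit false

namespace Pool.Agent.Results.MP_f82ddf_nt.AlmostAllMonomials

open MvPolynomial Pool.Agent.Y719.SU Pool.Agent.N126.LG Pool.Agent.N126.LA
open Pool.Agent.R869.Wd

/-- Lang's problem for the points and curves in `X = {F = 0}` for which exactly the coordinates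
outside `J` vanish. For every embedding `σ` the following are equivalent: `J` is not loose for `F`;
there is no entire curve in `X_σ` of this kind; there is no rational curve in `X_σ` of this kind; over
all finite extensions `L` of `K`, the heights of the points of `X(L)` of this kind with coordinates
that are sums of `r` vectors, multiplied by units, are bounded by the heights of these vectors; for
bounded vectors there are only finitely many such points; each sequence `(x_j 2 ^ (m b_j))` of points
of `X(L)` contains only finitely many points of this kind. They hold if over every finite extension
`L` of `K` there are only finitely many points of this kind. -/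
def Criterion {K : Type} [Field K] [NumberField K] {n : ℕ} (F : MvPolynomial (Fin (n + 1)) K)
    (J : Finset (Fin (n + 1))) : Prop :=
  (∀ σ : K →+* ℂ, [¬ Loose F J, Hyperbolic σ (part F J) (hyper K J),
    NoRat σ (part F J) (hyper K J), HtBound (part F J) (hyper K J),
    FinBound (part F J) (hyper K J), GeometricFinite (part F J) (hyper K J)].TFAE) ∧
  (Finiteness (part F J) (hyper K J) → ¬ Loose F J)

/-- For every embedding `σ` the following are equivalent: no set of variables is loose for `F`;
`X_σ` is hyperbolic; `X_σ` contains no rational curve; over all finite extensions `L` of `K`, the
heights of the points of `X(L)` with coordinates that are sums of `r` vectors, multiplied by units,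
are bounded by the heights of these vectors; for bounded vectors there are only finitely many such
points; each sequence `(x_j 2 ^ (m b_j))` of points of `X(L)` has only finitely many different terms.
They hold if `X(L)` is finite for all finite extensions `L` of `K`. -/
def CriterionX {K : Type} [Field K] [NumberField K] {n : ℕ} (F : MvPolynomial (Fin (n + 1)) K) :
    Prop :=
  (∀ σ : K →+* ℂ, [∀ J, ¬ Loose F J, Hyperbolic σ (Ideal.span {F}) ⊤,
    NoRat σ (Ideal.span {F}) ⊤, HtBound (Ideal.span {F}) ⊤, FinBound (Ideal.span {F}) ⊤,
    GeometricFinite (Ideal.span {F}) ⊤].TFAE) ∧
  (Finiteness (Ideal.span {F}) ⊤ → ∀ σ : K →+* ℂ, Hyperbolic σ (Ideal.span {F}) ⊤)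

/-- For all `n`, `s`, all nonempty sets of variables `I 1, …, I s` and almost all tuples of monomials
of degree `d` in `n + 1` variables, the `i`-th one in the variables from `I i`, the following holds:
for all hypersurfaces `X = {F = 0}` over all number fields `K`, where `F` is a linear combination of
these monomials and of the `x_j ^ d`, the conditions in `CriterionX F` are equivalent, and for all sets
`J` of variables the conditions in `Criterion F J` are equivalent. -/
theorem result (n s : ℕ) (I : Fin s → Finset (Fin (n + 1))) (hI : ∀ i, (I i).Nonempty) :
    AlmostAllIn I fun d a => ∀ (K : Type) [Field K] [NumberField K]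
      (F : MvPolynomial (Fin (n + 1)) K), F.support ⊆ withPowers d a →
        CriterionX F ∧ ∀ J, Criterion F J :=
  almost_typI hI fun _ _ h K _ _ F hF =>
    ⟨⟨fun σ => (whole h hF σ).1, fun h' σ => (whole h hF σ).2 h'⟩, fun J =>
      ⟨fun σ => (stratum h hF σ J).1, fun h' => by
        obtain ⟨σ⟩ : Nonempty (K →+* ℂ) := inferInstance
        exact (stratum h hF σ J).2 h'⟩⟩

end Pool.Agent.Results.MP_f82ddf_nt.AlmostAllMonomials
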