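import Pool.Agent.N126.KB

/-!
MP_e97a4d_nt, Q1: entire curves and integral points on the inverse images of affine schemes under
power maps, their Kummer coverings, and complements of hypersurfaces in these.

Let `K` be a number field. `Cov (𝓞 K) ι n r l` (`Pool/Agent/N126/KB.lean`) consists of arbitrary
polynomials `E i` (`i` in the finite set `ι`), `P j` (`j = 1, …, r`), `Q k` (`k = 1, …, l`) in `n`
variables over `𝓞 K`, and positive numbers `e j`. For `m ≥ 1`, `Y.V m` is the list of the equations
`E i (x ^ m) = 0`, `w j ^ e j = P j (x ^ m)`, `Q k (x ^ m) u k = 1` in the variables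
`x 1, …, x n, w 1, …, w r, u 1, …, u l`, where `x ^ m = (x 1 ^ m, …, x n ^ m)`. They define the affine
scheme `V` over `𝓞 K`. The closed subscheme `V'` of `V` is given by any polynomials `G` over `𝓞 K` in
the same variables. `EntireCurvesIn σ`: (i), every nonconstant entire curve in `V(ℂ)` (by `σ`) lies in
`V'(ℂ)`. `GmCurvesIn σ`: every nonconstant map `t ↦ v t`, `t ≠ 0`, into `V(ℂ)` with Laurent
polynomials as coordinates lies in `V'(ℂ)`. `FinitelyManyIntegral`: (ii), `V(O_S) ∖ V'(O_S)` is
finite for all finite extensions `L` of `K` and all finite `S`.

Points of `V` outside of `V'` over number fields `L ⊇ K` of the form `x = ∑ i, t ^ (m i) v i` with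
`r` summands, `t ∈ L` nonzero, `m i` integers, `v i` vectors over `L`: `HeightLinear` bounds their
height by an explicit constant, which depends on `r` and on the degrees and norms of the equations,
times one plus the height of `(v i)`; `HeightBounded`: their height is bounded in terms of `r` and
the height of `(v i)`; `SparseFiniteAlg`: for all `L`, `r`, `B` those over `L` with height of `(v i)`
at most `B` are finite in number. `RecurrenceFinite`: every sequence in `V(O_S)` whose coordinates are
linear recurrence sequences has only finitely many different terms outside of `V'`.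
-/

set_option autoImplicit false

namespace Pool.Agent.Results.MP_e97a4d_nt.KummerCoveringsBLV

open MvPolynomial Pool.Agent.N126.KB Pool.Agent.W235.RM
open Pool.Agent.H159R3.Exp (FinitelyManyIntegral)
open Pool.Agent.TH409.SH (HeightLinear HeightBounded SparseFiniteAlg)
open scoped NumberField

/-- Let `E i`, `P j`, `Q k` be polynomials over the ring of integers of a number field `K` and `e j`
positive numbers. There is `m0` such that for all `m ≥ m0` which are divisible by the `e j` the affine
scheme `V` with the equations `E i (x ^ m) = 0`, `w j ^ e j = P j (x ^ m)`, `Q k (x ^ m) u k = 1` has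
the following property. For all closed subschemes `V'` of `V` and all embeddings `σ` of `K` the
following are equivalent: (i), every entire curve in `V_σ` lies in `V'_σ`; every nonconstant map from
the multiplicative group to `V_σ` lies in `V'_σ`; each of three height bounds or finiteness statements
for the points of `V` outside of `V'` over number fields which are sums of few multiples of powers of
one number; each sequence of `S`-integral points of `V`, whose coordinates are linear recurrence
sequences, has only finitely many different terms outside of `V'`. If `V(O_S) ∖ V'(O_S)` is finite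
for all finite extensions of `K` and all finite `S`, (ii), then (i) holds for all `σ`. -/
theorem result {K : Type} [Field K] [NumberField K] {ι : Type} [Finite ι] {n r l : ℕ}
    (Y : Cov (𝓞 K) ι n r l) :
    ∃ m0 : ℕ, ∀ m, m0 ≤ m → (∀ j, Y.e j ∣ m) →
      ∀ (κ : Type) (G : κ → MvPolynomial (Fin (n + r + l)) (𝓞 K)),
        (∀ σ : K →+* ℂ, [EntireCurvesIn σ (Y.V m) G, GmCurvesIn σ (Y.V m) G,
          HeightLinear (Y.V m) G, HeightBounded (Y.V m) G, SparseFiniteAlg (Y.V m) G,
          RecurrenceFinite (Y.V m) G].TFAE) ∧
        (FinitelyManyIntegral (Y.V m) G → ∀ σ : K →+* ℂ, EntireCurvesIn σ (Y.V m) G) :=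
  kummer_blv Y

end Pool.Agent.Results.MP_e97a4d_nt.KummerCoveringsBLV
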