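import Pool.Agent.N126.IS.All4

/-!
MP_c7af3c_ag, Q1: the Kummer coverings of ALL projective varieties, ramified over sufficiently many
generic hyperplane sections, are algebraically hyperbolic (so groupless) and arithmetically
hyperbolic.

`V = {H = 0}` is an arbitrary projective variety of dimension at most `d` over a field `k0` of
characteristic `0` (`DimLE k0 H d`), and the `l j`, `j = 0, …, N`, are linear forms with generic
coefficients over `k0`, in an algebraically closed field `K`, where `N + 1 ≥ 2 * d + 2`. The image of
`V` under the linear map `l` to the projective `N`-space has the equations `F` (`IsImage H l F`), and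
`X = {Pre m F = 0}` is the set of the points `x` of the projective `N`-space such that
`(x 0 ^ m, …, x N ^ m)` is in this image: the Kummer covering of `V` given by the `m`-th roots of the
linear forms `l j`, ramified over the hyperplane sections `{l j = 0}`.

* `AlgHyperbolic A F`: the degree of every morphism `f` from a smooth projective curve of genus `g`
  to `{F = 0}` is at most `A max (2 g - 2, 0)`. The curve is given by its function field, the
  morphism by its homogeneous coordinates; its degree is `pht K f`, and `2 g - 2` is `canDeg K L`.
* `Cone F` is the cone over `{F = 0}`.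
* `FinPts k0 V`: only finitely many points of the projective space are represented by vectors in
  `V` with coordinates in any given subfield of `K` generated over `k0` by finitely many elements.
* `Mordellic F`: finitely many points of `{F = 0}` over each finitely generated subfield of `K`.
-/

set_option autoImplicit false

namespace Pool.Agent.Results.MP_c7af3c_ag.KummerGroupless

open MvPolynomial Pool.Agent.W602.GT Pool.Agent.N126.IS
open Pool.Agent.W603.CX (OrbitsConstant AlgHyperbolic BoundedOnCurves)

theorem result :
    ∀ (N m D' : ℕ) (T : Finset (Fin (N + 1) →₀ ℕ)),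
      (N + 1) * (T.card + 1) * (T.card - 1) ^ 2 < m → ∃ A : ℕ,
      ∀ (K k0 : Type) [Field K] [IsAlgClosed K] [CharZero K] [Field k0] [Algebra k0 K]
        (n d : ℕ) (ι0 : Type) (H : ι0 → MvPolynomial (Fin (n + 1)) k0)
        (l : Fin (N + 1) → Fin (n + 1) → K), (∀ i, IsForm (H i)) → DimLE k0 H d →
        2 * d + 1 ≤ N →
        AlgebraicIndependent k0 (fun p : Fin (N + 1) × Fin (n + 1) => l p.1 p.2) →
        ∀ (ι : Type) (F : ι → MvPolynomial (Fin (N + 1)) K), (∀ i, (F i).IsHomogeneous D') →
          (∀ i, (F i).support ⊆ T) → IsImage H l F →
          -- all curves on the Kummer covering are bounded uniformly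
          AlgHyperbolic A (Pre m F) ∧
          -- only finitely many points over all finitely generated extensions of `k0`
          FinPts k0 (Cone (Pre m F)) ∧ Mordellic (Pre m F) := by
  intro N m D' T hm
  have hm' : bound N T.card < m := hm
  obtain ⟨A, hA⟩ := geom_all (n := N) (m := m) (D := D') (T := T) hm'
  refine ⟨A, fun K k0 _ _ _ _ _ n d ι0 H l hH hd hN hl ι F hF hT hI => ?_⟩
  obtain ⟨h1, h2, h3⟩ := kummer_all hH hd hN hl hF hT hI hm'
  exact ⟨((hA K ι F hF hT).1.out 0 4).2 h3, h1, h2⟩

end Pool.Agent.Results.MP_c7af3c_ag.KummerGroupless
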