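import Pool.Agent.N126.KN

/-!
MP_f82ddf_nt, Q1: entire curves and rational points, outside of any closed subset `Z`, for the
coverings `w j ^ e j = F j (t 0 ^ m, …, t n ^ m)` of the varieties `f (t 0 ^ m, …, t n ^ m) = 0`,
`f ∈ E`, over number fields; `m` is large, and `E`, `F`, `e` are arbitrary.

`Cov` (`Pool/Agent/N126/KDefs.lean`) contains the set `E` of forms over the number field `K`, the
forms `F j` over `K` and the positive numbers `e j`. For `m` divisible by the `e j` let `X` be the
projective variety with the equations above, in the weighted projective space with the coordinates
`t i` of weight one and `w j` of weight `m (deg F j) / e j`, and let `Z` be given by the weighted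
homogeneous polynomials in `B` over `K`; all are allowed. `EntireIn σ B`: all nonconstant entire
curves in `X_σ` lie in `Z_σ`; `RationalIn σ B`: all nonconstant rational curves in `X_σ` lie in `Z_σ`;
`Finiteness B`: for all finite extensions `L` of `K`, only finitely many points of `X(L)` are outside
of `Z`; `PolynomialFinite B`: for all finite extensions `L` of `K` and all polynomials `p i`, `s j`
over `L`, if, for `k = 0, 1, 2, …`, the points with the coordinates `(p (k), s (k))` are in `X(L)`
whenever `p (k) ≠ 0`, then only finitely many of them are outside of `Z`.
-/

set_option autoImplicit false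

namespace Pool.Agent.Results.MP_f82ddf_nt.KummerLang

open MvPolynomial Pool.Agent.N126.KN

/-- For all sets `E` of forms, all forms `F j` over a number field `K` and all `e j` there is `m0`
such that the following holds for all `m ≥ m0` which are divisible by the `e j`, and for all closed
subsets `Z` over `K` of the variety `X` with the equations `f (t 0 ^ m, …, t n ^ m) = 0`, `f ∈ E`,
`w j ^ e j = F j (t 0 ^ m, …, t n ^ m)`. For every embedding `σ` of `K` in the complex numbers, the
following are equivalent: all nonconstant entire curves in `X_σ` lie in `Z_σ`; all nonconstant
rational curves in `X_σ` lie in `Z_σ`; for all finite extensions `L` of `K` and all sequences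
`(p (k), s (k))`, `k = 0, 1, 2, …`, of points of `X(L)` whose coordinates are polynomials in `k` only
finitely many of the points are outside of `Z`. If for all finite extensions `L` of `K` only finitely
many points of `X(L)` are outside of `Z`, then for all `σ` all nonconstant entire curves in `X_σ` lie
in `Z_σ`. (For `Z` empty: `X_σ` is hyperbolic if and only if it contains no rational curve, and if
and only if the points of `X(L)` given by polynomials in `k` are finite in number for all `L`; this
does not depend on `σ`; it holds if `X(L)` is finite for all `L`.) -/
theorem result {K : Type} [Field K] [NumberField K] {n r : ℕ} (X : Cov K n r) :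
    ∃ m0 : ℕ, ∀ m, m0 ≤ m → (∀ j, X.e j ∣ m) →
      ∀ B : Set (MvPolynomial (Fin (n + 1) ⊕ Fin r) K), X.Forms m B →
        (∀ σ : K →+* ℂ, [X.EntireIn m σ B, X.RationalIn m σ B, X.PolynomialFinite m B].TFAE) ∧
        (X.Finiteness m B → ∀ σ : K →+* ℂ, X.EntireIn m σ B) :=
  kummer_lang X

end Pool.Agent.Results.MP_f82ddf_nt.KummerLang
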