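import Pool.Agent.N126.LQ

/-!
MP_7ede32_ag, Q1: the strong conjecture of Lang, with its converse, for the points with coordinates
which are short sums of units, on all components of all closed subsets of the varieties over number
fields of the vectors whose `m`-th powers, for instance whose squares, are the values of a polynomial
of degree at most `n` at given elements.

`X` is the projective variety over `K` given by the forms `F e`, and `Z` is given by the forms in the
ideal `I'`. `InPowVal a n m F` (`Pool/Agent/N126/LP.lean`): for all extensions `E` of `K`, the points
`x` of `X` over `E` are vectors for which there is a polynomial `H` over `E` of degree at most `n` with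
`x i ^ m = H (a i)` for all `i`. From `Pool/Agent/Y719/SU/Def.lean`: `HtBound I I'`: for all finite
extensions `L` of `K`, the height of the points of `X(L)` outside of `Z` with homogeneous coordinates
`x = ∑ u_j v_j`, where the `u_j` are `r` elements of a finitely generated group of rational numbers
and the `v_j` are `r` vectors over `L`, is at most a constant times `1` plus the height of the system
of the `v_j`; `FinBound I I'`: for bounded `v_j` there are only finitely many such points;
`Finiteness I I'`: for all `L` only finitely many points of `X(L)` are outside of `Z`;
`NoRat σ I I'`: all rational curves in `X_σ` lie in `Z_σ`. `Contained σ I₀ I'` (`Pool/Agent/N126/LS.lean`): `Z_0` is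
contained in `Z`. `SubVar F M w y`: `M` is the function field and `y` the generic point of a closed
subvariety of dimension `w`; `IsComponent F y`: it is an irreducible component (of `X_σ`).
-/

set_option autoImplicit false

namespace Pool.Agent.Results.MP_7ede32_ag.PolynomialValueStrongLang

open MvPolynomial Pool.Agent.Y719.SU Pool.Agent.N126.LP Pool.Agent.N126.LQ
open Pool.Agent.N126.LS
open Pool.Agent.W602.GT (IsForm IsComponent SubVar GeneralType KodGe Psef Ruled val)

/-- Let `a 0, …, a N` be distinct elements of a number field `K`, `m ≥ 2`, `n < 2 m` and
`2 (N + 1) > 4 n + (n + 1) ^ 2`, and let `X` be any closed subset, over `K`, of the complete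
intersection of dimension `n` of the vectors whose `m`-th powers are the values of a polynomial of
degree at most `n` at the `a i` (for `n = m = 2`: the surfaces of Büchi's problem for `N + 1 ≥ 9`
squares, and the curves on them). There is a closed subset `Z_0` of `X`, over `K`, with the following
properties, for all embeddings `σ` of `K` in the complex numbers. (1) An irreducible component `V` of
`X_σ` is of general type if and only if it is not contained in `Z_0`, if and only if it is not ruled,
if and only if its canonical bundle is pseudo-effective, if and only if its Kodaira dimension is at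
least zero, if and only if the lines in `V` are not dense in `V`. (2) For all closed subsets `Z` over
`K` the following are equivalent: `Z` contains `Z_0`; over all finite extensions `L` of `K`, the
heights of the points of `X(L)` outside of `Z` with coordinates that are sums of `r` vectors,
multiplied by units, are bounded by the heights of these vectors; for bounded vectors there are only
finitely many such points; all rational curves in `X_σ` lie in `Z`. (3) If `X(L)` has only
finitely many points outside of `Z`, for all finite extensions `L` of `K`, then `Z` contains `Z_0`; so
`Z` contains the components of `X_σ` which are not of general type. -/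
theorem result {K : Type} [Field K] [NumberField K] {N n m : ℕ} (hm : 2 ≤ m) (hnm : n < 2 * m)
    (hN : 4 * n + (n + 1) ^ 2 < 2 * (N + 1)) {a : Fin (N + 1) → K} (ha : Function.Injective a)
    {ι : Type} {F : ι → MvPolynomial (Fin (N + 1)) K} (hF : ∀ e, IsForm (F e))
    (hX : InPowVal a n m F) :
    ∃ I₀ : Ideal (MvPolynomial (Fin (N + 1)) K), Ideal.span (Set.range F) ≤ I₀ ∧
      (∀ (σ : K →+* ℂ) (M : Type) [Field M] [Algebra ℂ M] (w : ℕ) (y : Fin (N + 1) → M),
        SubVar (fun e => map σ (F e)) M w y → IsComponent (fun e => map σ (F e)) y →
          [GeneralType ℂ M w, ∃ G ∈ I₀, IsForm G ∧ val y (map σ G) ≠ 0, ¬ Ruled ℂ M,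
            Psef ℂ M w (fun _ => False), KodGe ℂ M w (fun _ => False) 0,
            ¬ CoveredByLines y].TFAE) ∧
      (∀ (σ : K →+* ℂ) (I' : Ideal (MvPolynomial (Fin (N + 1)) K)), [Contained σ I₀ I',
        HtBound (Ideal.span (Set.range F)) I', FinBound (Ideal.span (Set.range F)) I',
        NoRat σ (Ideal.span (Set.range F)) I'].TFAE) ∧
      ∀ (σ : K →+* ℂ) (I' : Ideal (MvPolynomial (Fin (N + 1)) K)),
        Finiteness (Ideal.span (Set.range F)) I' → Contained σ I₀ I' := by
  obtain ⟨I₀, h1, h2, h3, h4⟩ := powVal_strong hm hnm hN ha hF hX
  refine ⟨I₀, h1, h2, fun σ I' => ?_, h4⟩
  have h := h3 σ I'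
  tfae_have 1 ↔ 2 := h.out 0 1
  tfae_have 1 ↔ 3 := h.out 0 2
  tfae_have 1 ↔ 4 := h.out 0 5
  tfae_finish

end Pool.Agent.Results.MP_7ede32_ag.PolynomialValueStrongLang
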