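import Pool.Agent.N126.LP

/-!
MP_f82ddf_nt, Q1: entire curves and rational points, outside of any closed subset `Z`, for the
varieties over number fields of the vectors whose `m`-th powers, for instance whose squares, are the
values of a polynomial of degree at most `n` at given elements, and for their closed subsets.

`X` is the projective variety over `K` given by the forms `F e`, and `Z` is given by the forms in the
ideal `I'` (for `I' = ⊤` the set `Z` is empty). `IsPowVal a n m F`, `InPowVal a n m F`
(`Pool/Agent/N126/LP.lean`): for all extensions `E` of `K`, the points `x` of `X` over `E` are the
vectors, respectively are among the vectors, for which there is a polynomial `H` over `E` of degree at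
most `n` with `x i ^ m = H (a i)` for all `i`. From `Pool/Agent/Y719/SU/Def.lean`: `Hyperbolic σ I I'`:
all nonconstant entire curves in `X_σ` lie in `Z_σ`; `NoRat σ I I'`: all rational curves in `X_σ` lie
in `Z_σ`; `Finiteness I I'`: for all finite extensions `L` of `K` only finitely many points of `X(L)`
are outside of `Z`; `HtBound I I'`: the height of the points of `X(L)` outside of `Z` with homogeneous
coordinates `x = ∑ u_j v_j`, where the `u_j` are `r` elements of a finitely generated group of
rational numbers and the `v_j` are `r` vectors over `L`, is at most a constant times `1` plus the
height of the system of the `v_j`; `FinBound I I'`: for bounded `v_j` there are only finitely many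
such points. `LinesIn I I'` (`Pool/Agent/N126/LN.lean`): all lines in `X` over the finite extensions
of `K` lie in `Z`.
-/

set_option autoImplicit false

namespace Pool.Agent.Results.MP_f82ddf_nt.PolynomialValueLang

open MvPolynomial Pool.Agent.Y719.SU Pool.Agent.N126.LN Pool.Agent.N126.LP
open Pool.Agent.W602.GT (IsForm)

/-- Let `a 0, …, a N` be distinct elements of a number field `K`, `m ≥ 2` and `N ≥ 4 n`, and let `X`
be the smooth complete intersection of dimension `n` of the vectors whose `m`-th powers are the values
of a polynomial of degree at most `n` at the `a i` or, if `n < 2 m`, any closed subset over `K` of it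
(for `n = m = 2`: the surfaces of Büchi's problem for `N + 1` squares, and the curves on them). Let
`Z` be any closed subset. For every embedding `σ` of `K` in the complex numbers, the following are
equivalent: all nonconstant entire curves in `X_σ` lie in `Z_σ`; all rational curves in `X_σ` lie in
`Z_σ`; over all finite extensions `L` of `K`, the heights of the points of `X(L)` outside of `Z` with
coordinates that are sums of `r` vectors, multiplied by units, are bounded by the heights of these
vectors; for bounded vectors there are only finitely many such points; all lines in `X` over finite
extensions of `K` lie in `Z`. If for all finite extensions `L` of `K` only finitely many points of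
`X(L)` are outside of `Z`, then for all `σ` all nonconstant entire curves in `X_σ` lie in `Z_σ`. -/
theorem result {K : Type} [Field K] [NumberField K] {N n m : ℕ} (hm : 2 ≤ m) (hN : 4 * n ≤ N)
    {a : Fin (N + 1) → K} (ha : Function.Injective a) {ι : Type}
    {F : ι → MvPolynomial (Fin (N + 1)) K} (hF : ∀ e, IsForm (F e))
    (hX : IsPowVal a n m F ∨ (n < 2 * m ∧ InPowVal a n m F))
    (I' : Ideal (MvPolynomial (Fin (N + 1)) K)) :
    (∀ σ : K →+* ℂ, [Hyperbolic σ (Ideal.span (Set.range F)) I',
      NoRat σ (Ideal.span (Set.range F)) I', HtBound (Ideal.span (Set.range F)) I',
      FinBound (Ideal.span (Set.range F)) I', LinesIn (Ideal.span (Set.range F)) I'].TFAE) ∧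
    (Finiteness (Ideal.span (Set.range F)) I' →
      ∀ σ : K →+* ℂ, Hyperbolic σ (Ideal.span (Set.range F)) I') :=
  ⟨fun σ => (powVal_lang hm hN ha hF hX I' σ).1, fun h σ => (powVal_lang hm hN ha hF hX I' σ).2 h⟩

end Pool.Agent.Results.MP_f82ddf_nt.PolynomialValueLang
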