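import Pool.Agent.N126.LW
import Pool.Agent.R869.WEx2

/-!
MP_f82ddf_nt, Q1: entire curves, subvarieties and rational points, outside of any closed subset `Z`,
for all projective varieties over number fields given by forms with few monomials whose exponents
are far apart in the sense of lattice widths (no divisibility of the exponents, arbitrary
coefficients).

`Wide ∅ F N` (`Pool/Agent/R869/WDefs.lean`): whenever at most `n` pairs of exponent vectors of the
forms, in the variables of a set, are such that the sum of the segments between them has positive
width in all directions, this sum has width at least `N` in all directions. This is a condition on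
the monomials only.

`X` is the projective variety over `K` given by the forms `F e`, and `Z` is given by the forms in the
ideal `I'` (for `I' = ⊤` the set `Z` is empty). From `Pool/Agent/Y719/SU/Def.lean`: `Hyperbolic σ I I'`:
all nonconstant entire curves in `X_σ` lie in `Z_σ`; `NoRat σ I I'`: all rational curves in `X_σ` lie
in `Z_σ`; `Finiteness I I'`: for all finite extensions `L` of `K` only finitely many points of `X(L)`
are outside of `Z`; `HtBound I I'`: the height of the points of `X(L)` outside of `Z` with homogeneous
coordinates `x = ∑ u_j v_j`, where the `u_j` are `r` elements of a finitely generated group of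
rational numbers and the `v_j` are `r` vectors over `L`, is at most a constant times `1` plus the
height of the system of the `v_j`; `FinBound I I'`: for bounded `v_j` there are only finitely many
such points. `GeometricFinite I I'` (`Pool/Agent/N126/LG.lean`): for all `L`, all points
`x ∈ L ^ (n + 1)` and all weights `b`, if all the points `(x_j 2 ^ (m b_j))`, `m = 0, 1, 2, …`, are on
`X`, then only finitely many of them are outside of `Z`. `GeneralTypeOutside σ F I'`
(`Pool/Agent/N126/LW.lean`): all closed subvarieties of positive dimension of `X_σ` which are not of
general type lie in `Z_σ`.
-/

set_option autoImplicit false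

namespace Pool.Agent.Results.MP_f82ddf_nt.WideLang

open MvPolynomial Pool.Agent.Y719.SU Pool.Agent.N126.LG Pool.Agent.N126.LW
open Pool.Agent.R869.Wd Pool.Agent.W602.GT

/-- Let `X` be the projective variety in `P ^ n`, over a number field `K`, given by forms `F e` with
at most `s` monomials, and let the system of forms be `N`-wide with `N > n s (s - 1) (s - 2) / 2`.
Let `Z` be any closed subset. For every embedding `σ` of `K` in the complex numbers, the following
are equivalent: all nonconstant entire curves in `X_σ` lie in `Z_σ`; all rational curves in `X_σ` lie
in `Z_σ`; all closed subvarieties of positive dimension of `X_σ` which are not of general type lie in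
`Z_σ`; over all finite extensions `L` of `K`, the heights of the points of `X(L)` outside of `Z` with
coordinates that are sums of `r` vectors, multiplied by units, are bounded by the heights of these
vectors; for bounded vectors there are only finitely many such points; there are only finitely many
such points in each sequence `(x_j 2 ^ (m b_j))` of points of `X(L)`. If for all finite extensions
`L` of `K` only finitely many points of `X(L)` are outside of `Z`, then for all `σ` all nonconstant
entire curves in `X_σ` lie in `Z_σ`. (For `Z` empty: `X_σ` is hyperbolic if and only if it contains no
rational curve, and so on; the hyperbolicity does not depend on `σ`; if `X(L)` is finite for all `L`,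
then `X_σ` is hyperbolic for all `σ`; if `X_σ` is not hyperbolic, then, for some `L`, there is a
sequence `(x_j 2 ^ (m b_j))` of infinitely many points of `X(L)`.) -/
theorem result {K : Type} [Field K] [NumberField K] {n s N : ℕ} {ι : Type}
    {F : ι → MvPolynomial (Fin (n + 1)) K} (hs : 1 ≤ s) (hF : ∀ e, IsForm (F e))
    (hc : ∀ e, (F e).support.card ≤ s) (hW : Wide ∅ F N)
    (hN : n * (s * ((s - 1) * (s - 2) / 2)) < N) (I' : Ideal (MvPolynomial (Fin (n + 1)) K)) :
    (∀ σ : K →+* ℂ, [Hyperbolic σ (Ideal.span (Set.range F)) I',
      NoRat σ (Ideal.span (Set.range F)) I', GeneralTypeOutside σ F I',
      HtBound (Ideal.span (Set.range F)) I', FinBound (Ideal.span (Set.range F)) I',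
      GeometricFinite (Ideal.span (Set.range F)) I'].TFAE) ∧
    (Finiteness (Ideal.span (Set.range F)) I' →
      ∀ σ : K →+* ℂ, Hyperbolic σ (Ideal.span (Set.range F)) I') := by
  have hC : Sys ∅ F s N := ⟨hF, hs, hc, hW, by
    rw [tri_choose]
    refine lt_of_le_of_lt (le_of_eq ?_) hN
    ring⟩
  exact ⟨fun σ => (wide_lang σ hF (sys_map σ hC) I').1,
    fun h σ => (wide_lang σ hF (sys_map σ hC) I').2 h⟩

end Pool.Agent.Results.MP_f82ddf_nt.WideLang
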