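import Pool.Agent.N126.LT

/-!
MP_7ede32_ag, Q1: the strong conjecture of Lang, with its converse, for the points with coordinates
which are short sums of units, on all components of the projective varieties over number fields given
by forms with few monomials whose exponents are far apart in the sense of lattice widths (arbitrary
coefficients, arbitrary singularities).

`Wide ∅ F N` (`Pool/Agent/R869/WDefs.lean`): whenever at most `n` pairs of exponent vectors of the
forms, in the variables of a set, are such that the sum of the segments between them has positive
width in all directions, this sum has width at least `N` in all directions. This is a condition on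
the monomials only.

`X` is the projective variety over `K` given by the forms `F e`, and `Z` is given by the forms in the
ideal `I'`. From `Pool/Agent/Y719/SU/Def.lean`: `HtBound I I'`: for all finite extensions `L` of `K`,
the height of the points of `X(L)` outside of `Z` with homogeneous coordinates `x = ∑ u_j v_j`, where
the `u_j` are `r` elements of a finitely generated group of rational numbers and the `v_j` are `r`
vectors over `L`, is at most a constant times `1` plus the height of the system of the `v_j`;
`FinBound I I'`: for bounded `v_j` there are only finitely many such points; `Finiteness I I'`: for all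
`L` only finitely many points of `X(L)` are outside of `Z`; `NoRat σ I I'`: all rational curves in
`X_σ` lie in `Z_σ`. `Contained σ I₀ I'` (`Pool/Agent/N126/LS.lean`): `Z_0` is contained in `Z`. `SubVar F M w y`: `M` is the function field and `y` the generic point of a closed subvariety of
dimension `w`; `IsComponent F y`: it is an irreducible component (of `X_σ`).
-/

set_option autoImplicit false

namespace Pool.Agent.Results.MP_7ede32_ag.WideStrongLang

open MvPolynomial Pool.Agent.Y719.SU Pool.Agent.N126.LS
open Pool.Agent.R869.Wd Pool.Agent.W602.GT

/-- Let `X` be the projective variety in `P ^ n`, over a number field `K`, given by finitely many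
forms `F e` with at most `s` monomials, and let the system of forms be `N`-wide with
`N > n s (s - 1) (s - 2) / 2`. There is a closed subset `Z_0` of `X`, over `K`, with the following
properties, for all embeddings `σ` of `K` in the complex numbers. (1) An irreducible component `V` of
positive dimension of `X_σ` is of general type if and only if it is not contained in `Z_0`, if and
only if it is not ruled, if and only if its canonical bundle is pseudo-effective, if and only if no
diagonal one-parameter group acts on `V` nontrivially. (2) For all closed subsets `Z` over `K` the
following are equivalent: `Z` contains `Z_0`; over all finite extensions `L` of `K`, the heights of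
the points of `X(L)` outside of `Z` with coordinates that are sums of `r` vectors, multiplied by
units, are bounded by the heights of these vectors; for bounded vectors there are only finitely many
such points; all rational curves in `X_σ` lie in `Z`.
(3) If `X(L)` has only finitely many points outside of `Z`, for all finite extensions `L` of `K`, then
`Z` contains `Z_0`; so `Z` contains the components of `X_σ` of positive dimension which are not of
general type. -/
theorem result {K : Type} [Field K] [NumberField K] {n s N : ℕ} {ι : Type} [Finite ι]
    {F : ι → MvPolynomial (Fin (n + 1)) K} (hs : 1 ≤ s) (hF : ∀ e, IsForm (F e))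
    (hc : ∀ e, (F e).support.card ≤ s) (hW : Wide ∅ F N)
    (hN : n * (s * ((s - 1) * (s - 2) / 2)) < N) :
    ∃ I₀ : Ideal (MvPolynomial (Fin (n + 1)) K), Ideal.span (Set.range F) ≤ I₀ ∧
      (∀ (σ : K →+* ℂ) (M : Type) [Field M] [Algebra ℂ M] (w : ℕ) (y : Fin (n + 1) → M), 1 ≤ w →
        SubVar (fun e => map σ (F e)) M w y → IsComponent (fun e => map σ (F e)) y →
          [GeneralType ℂ M w, ∃ G ∈ I₀, IsForm G ∧ val y (map σ G) ≠ 0, ¬ Ruled ℂ M,
            Psef ℂ M w (fun _ => False),
            ∀ b : Fin (n + 1) → ℤ, Acts ∅ ℂ y b → ∀ i i', y i ≠ 0 → y i' ≠ 0 →
              b i = b i'].TFAE) ∧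
      (∀ (σ : K →+* ℂ) (I' : Ideal (MvPolynomial (Fin (n + 1)) K)), [Contained σ I₀ I',
        HtBound (Ideal.span (Set.range F)) I', FinBound (Ideal.span (Set.range F)) I',
        NoRat σ (Ideal.span (Set.range F)) I'].TFAE) ∧
      ∀ (σ : K →+* ℂ) (I' : Ideal (MvPolynomial (Fin (n + 1)) K)),
        Finiteness (Ideal.span (Set.range F)) I' → Contained σ I₀ I' := by
  have hC : Sys ∅ F s N := ⟨hF, hs, hc, hW, by
    rw [tri_choose]
    refine lt_of_le_of_lt (le_of_eq ?_) hN
    ring⟩
  obtain ⟨I₀, h1, h2, h3, h4⟩ := Pool.Agent.N126.LT.strong_wide hF hC
  refine ⟨I₀, h1, h2, fun σ I' => ?_, h4⟩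
  have h := h3 σ I'
  tfae_have 1 ↔ 2 := h.out 0 1
  tfae_have 1 ↔ 3 := h.out 0 2
  tfae_have 1 ↔ 4 := h.out 0 5
  tfae_finish

end Pool.Agent.Results.MP_7ede32_ag.WideStrongLang
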